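import Pool.Agent.H17.CI.TargetsB
import Pool.Agent.H97.VG.KY

/-!
# Module JYT of ci_modules
-/

set_option autoImplicit false

namespace Pool.Agent.H34.CI

open MvPolynomial SC Pool.Agent.H27.LV Pool.Agent.H17.VG Pool.Agent.H17.CI
open Pool.Agent.H97.VG

theorem jyt_indep {K : Type} [Field K] {n : ℕ} {x y : Fin (n + 1) → K} (hx : x 0 = 1)
    (hy : y 0 = 0) (hy0 : y ≠ 0) : Indep x y := by
  unfold Indep
  rw [LinearIndependent.pair_iff]
  intro s t h
  have h0 : s = 0 := by
    have := congrFun h 0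
    simpa [hx, hy] using this
  refine ⟨h0, ?_⟩
  rw [h0, zero_smul, zero_add] at h
  exact (smul_eq_zero.1 h).resolve_right hy0

theorem pf_JYT (hRS : T_RS) (hLF : T_LF) : T_JYT := by
  intro R K _ _ _ _ n ι _ e F D Z x y w hS hP hy0 hy hw0
  obtain ⟨⟨η, hx, hy1⟩, -⟩ := hLF K n x y (jyt_indep hP.one hy0 hy)
  refine Submodule.subset_span ⟨fun i => ?_, (0, Matrix.of fun i j => w i * η j), 0,
    fun i => lin η * dir w (F i), ⟨?_, fun i => ?_⟩, fun i => ?_, ?_⟩
  · exact (hRS K n (e i) (dir w (F i)) 0 0 0 0 x y 0 0).2.2.2.2.2.2.2.2.2.2.2.1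
      ((hRS K n (e i) (F i) 0 w 0 0 x y 0 0).2.2.2.2.2.2.2.2.2.2.2.2.1 (hS.homog i))
  · intro j
    change w 0 * η j = 0
    rw [hw0, zero_mul]
  · have h1 : opF ((0, Matrix.of fun i j => w i * η j) : Op R K n) (F i) =
        lin η * dir w (F i) := by
      rw [opF_eq]
      have h2 : cD (0 : Derivation R K K) (F i) = 0 := by
        ext m
        rw [cD_coeff, Derivation.zero_apply, coeff_zero]
      rw [h2, zero_add]
      unfold mF dir lin
      rw [Finset.mul_sum]
      refine Finset.sum_congr rfl fun i _ => ?_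
      rw [← mul_assoc, mul_comm _ (C (w i)), Finset.mul_sum]
      congr 1
      refine Finset.sum_congr rfl fun j _ => ?_
      change C (w i * η j) * X j = C (w i) * (C (η j) * X j)
      rw [C_mul, mul_assoc]
    rw [h1, Pi.zero_apply, C_0, zero_mul, add_zero]
  · rw [res_mul, res_lin, hx, hy1, Polynomial.C_0, Polynomial.C_1, zero_add, one_mul]
  · have h1 : opV ((0, Matrix.of fun i j => w i * η j) : Op R K n) x = 0 := by
      funext i
      unfold opV
      rw [Derivation.zero_apply, zero_sub, Pi.zero_apply, neg_eq_zero]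
      have h2 : ∑ j, (Matrix.of fun i j => w i * η j) i j * x j = w i * ∑ j, η j * x j := by
        rw [Finset.mul_sum]
        refine Finset.sum_congr rfl fun j _ => ?_
        rw [Matrix.of_apply, mul_assoc]
      rw [h2, hx, mul_zero]
    rw [h1]
    exact Submodule.zero_mem _

end Pool.Agent.H34.CI
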